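import Mathlib

/-! Parameters for the polynomial Aaronson-Ambainis bound in terms of noise stability. -/

set_option autoImplicit false

namespace Pool.Agent.Lib_helper92.LS

open Real

theorem params {d : ℕ} (hd1 : 1 ≤ d) {s : ℝ} (hs : 0 < s) (hs1 : s ≤ 1) :
    ∃ K R m0 W k : ℝ, 1 ≤ K ∧ 4 * (d : ℝ) ≤ K ^ (1 / 8 : ℝ) ∧ 0 ≤ R ∧ 0 < m0 ∧ m0 ≤ 1 ∧
      0 ≤ W ∧ 2 * Real.exp 1 * (d / m0) * (d / (m0 ^ 2 / (4096 * d ^ 4))) ≤ Real.exp W ∧
      0 < k ∧ k ≤ 1 ∧
      4 * (d : ℝ) ^ 2 * (Real.sqrt k + k ^ (-2 : ℝ) *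
        ((d * ((s / (4 * d) ^ 5) ^ 80) ^ (1 / 8 : ℝ) + (4 * (d : ℝ) ^ 2 * m0 ^ (1 / 8 : ℝ) +
          4 * d * (360 * (d : ℝ) ^ 7 * K ^ 2 * (4 * d + 2 * W) ^ 6 * Real.exp (-R / 4)))) *
          2 ^ (1 / 8 * (R + 2)))) < s := by
  have hd : (1 : ℝ) ≤ d := by exact_mod_cast hd1
  have hd0 : (0 : ℝ) < d := by linarith
  have hlog2 : 0.6931471803 < Real.log 2 := Real.log_two_gt_d9
  have hlog2' : Real.log 2 < 0.6931471808 := Real.log_two_lt_d9
  obtain ⟨ell, hell⟩ : ∃ ell, ell = Real.log (4 * d) := ⟨_, rfl⟩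
  obtain ⟨u, hu⟩ : ∃ u, u = Real.log (1 / s) := ⟨_, rfl⟩
  have hexpell : Real.exp ell = 4 * d := by rw [hell]; exact Real.exp_log (by positivity)
  have hexpu : Real.exp u = 1 / s := by rw [hu]; exact Real.exp_log (by positivity)
  have hexpu' : Real.exp (-u) = s := by rw [Real.exp_neg, hexpu]; simp
  have hu0 : 0 ≤ u := by
    rw [hu]; apply Real.log_nonneg; rw [le_div_iff₀ hs]; linarith
  have hell1 : (1.386 : ℝ) ≤ ell := by
    have h1 : Real.log 4 ≤ ell := by
      rw [hell]; exact Real.log_le_log (by norm_num) (by linarith)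
    have h2 : Real.log 4 = 2 * Real.log 2 := by
      rw [show (4 : ℝ) = 2 ^ 2 by norm_num, Real.log_pow]; norm_num
    linarith
  have hell0 : 0 < ell := by linarith
  obtain ⟨m, hm⟩ : ∃ m, m = 400 * ell + 80 * u := ⟨_, rfl⟩
  have hm0 : 0 ≤ m := by rw [hm]; positivity
  have hθ0 : (s / (4 * d) ^ 5) ^ 80 = Real.exp (-m) := by
    have h1 : s / (4 * (d : ℝ)) ^ 5 = Real.exp (-u - 5 * ell) := by
      rw [Real.exp_sub, hexpu', ← hexpell, ← Real.exp_nat_mul]
      norm_num
    rw [h1, ← Real.exp_nat_mul, hm]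
    congr 1; push_cast; ring
  rw [hθ0]
  refine ⟨Real.exp (8 * ell), 432 * ell + 40 * u, Real.exp (-m), 1208 * ell + 240 * u,
    (s / (16 * d ^ 2)) ^ 2, Real.one_le_exp (by positivity), ?_, by positivity, Real.exp_pos _,
    ?_, by positivity, ?_, by positivity, ?_, ?_⟩
  · rw [← Real.exp_mul, ← hexpell]
    apply Real.exp_le_exp.2
    linarith
  · rw [← Real.exp_zero]
    apply Real.exp_le_exp.2
    linarith
  · -- the condition on W
    have h1 : (2 : ℝ) * Real.exp 1 * (d / Real.exp (-m)) *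
        (d / (Real.exp (-m) ^ 2 / (4096 * d ^ 4))) =
        2 * Real.exp (1 + 6 * ell + 3 * m) := by
      have e1 : Real.exp (6 * ell) = (4 * d) ^ 6 := by
        rw [← hexpell, ← Real.exp_nat_mul]; norm_num
      have e2 : Real.exp m = (Real.exp (-m))⁻¹ := by
        rw [← Real.exp_neg]; congr 1; ring
      have e3 : Real.exp (3 * m) = (Real.exp (-m))⁻¹ ^ 3 := by
        rw [← e2, ← Real.exp_nat_mul]; congr 1
      rw [Real.exp_add, Real.exp_add, e1, e3]
      have hpos := Real.exp_pos (-m)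
      field_simp
      ring
    rw [h1]
    have h2 : (2 : ℝ) ≤ Real.exp 1 := by
      have := Real.add_one_le_exp (1 : ℝ); linarith
    calc 2 * Real.exp (1 + 6 * ell + 3 * m)
        ≤ Real.exp 1 * Real.exp (1 + 6 * ell + 3 * m) := by
          apply mul_le_mul_of_nonneg_right h2 (Real.exp_pos _).le
      _ = Real.exp (2 + 6 * ell + 3 * m) := by
          rw [← Real.exp_add]; congr 1; ring
      _ ≤ Real.exp (1208 * ell + 240 * u) := by
          apply Real.exp_le_exp.2
          rw [hm]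
          linarith
  · -- k ≤ 1
    have h1 : s / (16 * d ^ 2) ≤ 1 := by
      rw [div_le_one (by positivity)]
      have : (1 : ℝ) ≤ (d : ℝ) ^ 2 := one_le_pow₀ hd
      linarith
    exact pow_le_one₀ (by positivity) h1
  · -- the main inequality
    have hk1 : Real.sqrt ((s / (16 * (d : ℝ) ^ 2)) ^ 2) = s / (16 * d ^ 2) :=
      Real.sqrt_sq (by positivity)
    have hk2 : ((s / (16 * (d : ℝ) ^ 2)) ^ 2) ^ (-2 : ℝ) = (16 * d ^ 2 / s) ^ 4 := by
      rw [Real.rpow_neg (by positivity)]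
      rw [show (2 : ℝ) = ((2 : ℕ) : ℝ) by norm_num, Real.rpow_natCast, ← pow_mul]
      rw [← inv_pow, inv_div]
    have hθ : Real.exp (-m) ^ (1 / 8 : ℝ) = Real.exp (-(50 * ell) - 10 * u) := by
      rw [← Real.exp_mul, hm]
      congr 1
      ring
    rw [hk1, hk2, hθ]
    have hB : (2 : ℝ) ^ (1 / 8 * (432 * ell + 40 * u + 2)) ≤ Real.exp (37.6 * ell + 3.5 * u) := by
      rw [Real.rpow_def_of_pos (by norm_num)]
      apply Real.exp_le_exp.2
      have h1 : Real.log 2 * (1 / 8 * (432 * ell + 40 * u + 2)) ≤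
          0.6931471808 * (1 / 8 * (432 * ell + 40 * u + 2)) :=
        mul_le_mul_of_nonneg_right hlog2'.le (by positivity)
      linarith
    have hC : (4 * (d : ℝ) + 2 * (1208 * ell + 240 * u)) ^ 6 ≤ Real.exp (36 * ell + 1.5 * u) := by
      have h1 : 2.7182818283 * ell ≤ Real.exp ell := by
        have h2 : ell ≤ Real.exp (ell - 1) := by
          have := Real.add_one_le_exp (ell - 1); linarith
        have h3 : Real.exp ell = Real.exp 1 * Real.exp (ell - 1) := by
          rw [← Real.exp_add]; congr 1; ring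
        have h4 : (2.7182818283 : ℝ) < Real.exp 1 := Real.exp_one_gt_d9
        rw [h3]
        calc 2.7182818283 * ell ≤ Real.exp 1 * ell :=
              mul_le_mul_of_nonneg_right h4.le hell0.le
          _ ≤ Real.exp 1 * Real.exp (ell - 1) :=
              mul_le_mul_of_nonneg_left h2 (Real.exp_pos _).le
      have h4 : (4 : ℝ) ≤ Real.exp ell := by rw [hexpell]; linarith
      have h5 : (1024 : ℝ) ≤ Real.exp (5 * ell) := by
        have e1 : Real.exp (5 * ell) = (Real.exp ell) ^ 5 := by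
          rw [← Real.exp_nat_mul]; norm_num
        rw [e1]
        calc (1024 : ℝ) = 4 ^ 5 := by norm_num
          _ ≤ (Real.exp ell) ^ 5 := pow_le_pow_left₀ (by norm_num) h4 5
      have h6 : 4 * (d : ℝ) + 2 * (1208 * ell + 240 * u) ≤ Real.exp (6 * ell + u / 4) := by
        have h7 : 1 + u / 4 ≤ Real.exp (u / 4) := by
          have := Real.add_one_le_exp (u / 4); linarith
        have h8 : Real.exp (6 * ell + u / 4) = Real.exp (5 * ell) * Real.exp ell * Real.exp (u / 4) := by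
          rw [← Real.exp_add, ← Real.exp_add]; congr 1; ring
        rw [h8, ← hexpell]
        have h9 : 1024 * Real.exp ell * (1 + u / 4) ≤
            Real.exp (5 * ell) * Real.exp ell * Real.exp (u / 4) := by
          apply mul_le_mul _ h7 (by positivity) (by positivity)
          exact mul_le_mul_of_nonneg_right h5 (Real.exp_pos _).le
        nlinarith [Real.exp_pos ell, mul_nonneg hu0 (by linarith : (0 : ℝ) ≤ Real.exp ell - 4)]
      calc (4 * (d : ℝ) + 2 * (1208 * ell + 240 * u)) ^ 6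
          ≤ (Real.exp (6 * ell + u / 4)) ^ 6 :=
            pow_le_pow_left₀ (by positivity) h6 6
        _ = Real.exp (36 * ell + 1.5 * u) := by
            rw [← Real.exp_nat_mul]; congr 1; push_cast; ring
    have hK2 : Real.exp (8 * ell) ^ 2 = Real.exp (16 * ell) := by
      rw [← Real.exp_nat_mul]; congr 1; push_cast; ring
    have hd8 : 1440 * (d : ℝ) ^ 8 ≤ 1 / 4 * Real.exp (8 * ell) := by
      have h1 : Real.exp (8 * ell) = (4 * d) ^ 8 := by
        rw [← hexpell, ← Real.exp_nat_mul]; norm_num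
      have h3 : 0 < (d : ℝ) ^ 8 := by positivity
      have h4 : (4 * (d : ℝ)) ^ 8 = 65536 * (d : ℝ) ^ 8 := by ring
      rw [h1, h4]
      linarith
    have hd1' : (d : ℝ) = 1 / 4 * Real.exp ell := by rw [hexpell]; ring
    have h4d2 : 4 * (d : ℝ) ^ 2 = 1 / 4 * Real.exp (2 * ell) := by
      have h1 : Real.exp (2 * ell) = (4 * d) ^ 2 := by
        rw [← hexpell, ← Real.exp_nat_mul]; norm_num
      rw [h1]; ring
    obtain ⟨E, hE⟩ : ∃ E, E = Real.exp (-(48 * ell) - 8.5 * u) := ⟨_, rfl⟩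
    have hE0 : 0 < E := by rw [hE]; exact Real.exp_pos _
    have hT1 : (d : ℝ) * Real.exp (-(50 * ell) - 10 * u) ≤ 1 / 4 * E := by
      calc (d : ℝ) * Real.exp (-(50 * ell) - 10 * u)
          = 1 / 4 * (Real.exp ell * Real.exp (-(50 * ell) - 10 * u)) := by rw [hd1', hexpell]; ring
        _ = 1 / 4 * Real.exp (-(49 * ell) - 10 * u) := by
            rw [← Real.exp_add]; congr 2; ring
        _ ≤ 1 / 4 * E := by
            rw [hE]
            apply mul_le_mul_of_nonneg_left _ (by norm_num)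
            exact Real.exp_le_exp.2 (by linarith)
    have hT2 : 4 * (d : ℝ) ^ 2 * Real.exp (-(50 * ell) - 10 * u) ≤ 1 / 4 * E := by
      calc 4 * (d : ℝ) ^ 2 * Real.exp (-(50 * ell) - 10 * u)
          = 1 / 4 * (Real.exp (2 * ell) * Real.exp (-(50 * ell) - 10 * u)) := by rw [h4d2]; ring
        _ = 1 / 4 * Real.exp (-(48 * ell) - 10 * u) := by
            rw [← Real.exp_add]; congr 2; ring
        _ ≤ 1 / 4 * E := by
            rw [hE]
            apply mul_le_mul_of_nonneg_left _ (by norm_num)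
            exact Real.exp_le_exp.2 (by linarith)
    have hT3 : 4 * (d : ℝ) * (360 * (d : ℝ) ^ 7 * Real.exp (8 * ell) ^ 2 *
        (4 * d + 2 * (1208 * ell + 240 * u)) ^ 6 * Real.exp (-(432 * ell + 40 * u) / 4)) ≤
        1 / 4 * E := by
      have h1 : 4 * (d : ℝ) * (360 * (d : ℝ) ^ 7 * Real.exp (8 * ell) ^ 2 *
          (4 * d + 2 * (1208 * ell + 240 * u)) ^ 6 * Real.exp (-(432 * ell + 40 * u) / 4)) =
          (1440 * (d : ℝ) ^ 8) * (Real.exp (16 * ell)) *
          ((4 * d + 2 * (1208 * ell + 240 * u)) ^ 6) *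
          Real.exp (-(432 * ell + 40 * u) / 4) := by rw [hK2]; ring
      rw [h1]
      calc (1440 * (d : ℝ) ^ 8) * (Real.exp (16 * ell)) *
          ((4 * d + 2 * (1208 * ell + 240 * u)) ^ 6) * Real.exp (-(432 * ell + 40 * u) / 4)
          ≤ (1 / 4 * Real.exp (8 * ell)) * Real.exp (16 * ell) * Real.exp (36 * ell + 1.5 * u) *
            Real.exp (-(432 * ell + 40 * u) / 4) := by
            gcongr
        _ = 1 / 4 * (Real.exp (8 * ell) * Real.exp (16 * ell) * Real.exp (36 * ell + 1.5 * u) *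
            Real.exp (-(432 * ell + 40 * u) / 4)) := by ring
        _ = 1 / 4 * E := by
            rw [← Real.exp_add, ← Real.exp_add, ← Real.exp_add, hE]; congr 2; ring
    obtain ⟨T, hTdef⟩ : ∃ T, T = (d : ℝ) * Real.exp (-(50 * ell) - 10 * u) +
        (4 * (d : ℝ) ^ 2 * Real.exp (-(50 * ell) - 10 * u) +
        4 * d * (360 * (d : ℝ) ^ 7 * Real.exp (8 * ell) ^ 2 *
        (4 * d + 2 * (1208 * ell + 240 * u)) ^ 6 * Real.exp (-(432 * ell + 40 * u) / 4))) :=
      ⟨_, rfl⟩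
    rw [← hTdef]
    have hT0 : 0 ≤ T := by rw [hTdef]; positivity
    have hT : T ≤ 3 / 4 * E := by rw [hTdef]; linarith
    have hprod : T * 2 ^ (1 / 8 * (432 * ell + 40 * u + 2)) ≤
        3 / 4 * Real.exp (-(10.4 * ell) - 5 * u) := by
      calc T * 2 ^ (1 / 8 * (432 * ell + 40 * u + 2))
          ≤ (3 / 4 * E) * Real.exp (37.6 * ell + 3.5 * u) := by
            apply mul_le_mul hT hB (by positivity) (by positivity)
        _ = 3 / 4 * Real.exp (-(10.4 * ell) - 5 * u) := by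
            rw [hE, mul_assoc, ← Real.exp_add]; congr 2; ring
    have hpre : 4 * (d : ℝ) ^ 2 * (16 * d ^ 2 / s) ^ 4 = 1 / 4 * Real.exp (10 * ell + 4 * u) := by
      have h1 : Real.exp (10 * ell) = (4 * d) ^ 10 := by
        rw [← hexpell, ← Real.exp_nat_mul]; norm_num
      have h2 : Real.exp (4 * u) = (1 / s) ^ 4 := by
        rw [← hexpu, ← Real.exp_nat_mul]; norm_num
      rw [Real.exp_add, h1, h2]
      field_simp
      ring
    have hpre0 : 0 ≤ 4 * (d : ℝ) ^ 2 * (16 * d ^ 2 / s) ^ 4 := by positivity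
    have hfinal : 4 * (d : ℝ) ^ 2 * (16 * d ^ 2 / s) ^ 4 *
        (T * 2 ^ (1 / 8 * (432 * ell + 40 * u + 2))) ≤ 3 / 16 * s := by
      calc 4 * (d : ℝ) ^ 2 * (16 * d ^ 2 / s) ^ 4 *
          (T * 2 ^ (1 / 8 * (432 * ell + 40 * u + 2)))
          ≤ 4 * (d : ℝ) ^ 2 * (16 * d ^ 2 / s) ^ 4 * (3 / 4 * Real.exp (-(10.4 * ell) - 5 * u)) :=
            mul_le_mul_of_nonneg_left hprod hpre0
        _ = 3 / 16 * (Real.exp (10 * ell + 4 * u) * Real.exp (-(10.4 * ell) - 5 * u)) := by
            rw [hpre]; ring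
        _ = 3 / 16 * Real.exp (-(0.4 * ell) - u) := by
            rw [← Real.exp_add]; congr 2; ring
        _ ≤ 3 / 16 * Real.exp (-u) := by
            apply mul_le_mul_of_nonneg_left _ (by norm_num)
            exact Real.exp_le_exp.2 (by linarith)
        _ = 3 / 16 * s := by rw [hexpu']
    have hsplit : 4 * (d : ℝ) ^ 2 * (s / (16 * d ^ 2) + (16 * d ^ 2 / s) ^ 4 *
        (T * 2 ^ (1 / 8 * (432 * ell + 40 * u + 2)))) =
        s / 4 + 4 * (d : ℝ) ^ 2 * (16 * d ^ 2 / s) ^ 4 *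
        (T * 2 ^ (1 / 8 * (432 * ell + 40 * u + 2))) := by
      have : 4 * (d : ℝ) ^ 2 * (s / (16 * d ^ 2)) = s / 4 := by field_simp; ring
      rw [mul_add, this]; ring
    rw [hsplit]
    linarith

end Pool.Agent.Lib_helper92.LS
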