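import Pool.Agent.Lib_helper92.LS.Flow
import Pool.Agent.Lib_helper92.LS.Params

/-! Polynomial Aaronson-Ambainis bound in terms of the noise stability: assembly. -/

set_option autoImplicit false
set_option linter.unusedSectionVars false

open Finset Polynomial

namespace Pool.Agent.Lib_helper92.LS

open Pool.Agent.Lib_helper30.AA Pool.Agent.Lib_helper40.QP Pool.Agent.Lib_helper8.QP

variable {I : Type} [Fintype I] [DecidableEq I]

lemma stab_le_one {f : (I → Bool) → ℝ} (hf : ∀ x, |f x| ≤ 1) :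
    ∑ S ∈ univ.erase (∅ : Finset I), (1 / 2 : ℝ) ^ S.card * coef f S ^ 2 ≤ 1 := by
  have h1 : av (fun x => f x ^ 2) ≤ 1 := by
    refine av_le_const fun x => ?_
    rw [← sq_abs]
    nlinarith [abs_nonneg (f x), hf x]
  have hpar : av (fun x => f x ^ 2) = ∑ S : Finset I, coef f S ^ 2 := (parseval_sq f).symm
  calc ∑ S ∈ univ.erase (∅ : Finset I), (1 / 2 : ℝ) ^ S.card * coef f S ^ 2
      ≤ ∑ S ∈ univ.erase (∅ : Finset I), coef f S ^ 2 := by
        refine Finset.sum_le_sum fun S _ => ?_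
        have : (1 / 2 : ℝ) ^ S.card ≤ 1 := pow_le_one₀ (by norm_num) (by norm_num)
        nlinarith [sq_nonneg (coef f S)]
    _ ≤ ∑ S : Finset I, coef f S ^ 2 :=
        Finset.sum_le_sum_of_subset_of_nonneg (Finset.subset_univ _) fun _ _ _ => sq_nonneg _
    _ ≤ 1 := by rw [← hpar]; exact h1

/-- Polynomial Aaronson-Ambainis bound with the noise stability in place of the variance. -/
theorem stab {d : ℕ} (hd1 : 1 ≤ d) (f : (I → Bool) → ℝ)
    (hf : ∀ x, |f x| ≤ 1) (hd : LowDeg d f) {s : ℝ} (hs : 0 < s)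
    (hsf : s ≤ ∑ S ∈ univ.erase (∅ : Finset I), (1 / 2 : ℝ) ^ S.card * coef f S ^ 2) :
    ∃ j, (s / (4 * (d : ℝ)) ^ 5) ^ 80 ≤ inf f j := by
  have hs1 : s ≤ 1 := hsf.trans (stab_le_one hf)
  obtain ⟨K, R, m0, W, k, hK, hKα, hR, hm0, hm1, hW0, hW, hk, hk1, hlt⟩ := params hd1 hs hs1
  have hθ0 : 0 ≤ (s / (4 * (d : ℝ)) ^ 5) ^ 80 := by positivity
  by_contra hcon
  push Not at hcon
  have hinf : ∀ j, inf f j ≤ (s / (4 * (d : ℝ)) ^ 5) ^ 80 := fun j => (hcon j).le
  set θ : ℝ := (s / (4 * (d : ℝ)) ^ 5) ^ 80 with hθ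
  set E : ℝ := d * θ ^ (1 / 8 : ℝ) + Err d (1 / 8) K R m0 W with hE
  have hE0 : 0 ≤ E := by
    have h1 : 0 ≤ θ ^ (1 / 8 : ℝ) := Real.rpow_nonneg hθ0 _
    have h2 : 0 ≤ Err d (1 / 8) K R m0 W := Err_nonneg hm0.le
    rw [hE]
    positivity
  have hexp : 0 ≤ 1 / 8 * (R + 2) := by positivity
  have hM : ∀ ρ ∈ Set.Icc (0 : ℝ) (1 / 2),
      rs ρ (fun S => av (fun z => ∑ j, inf (res S z f) j ^ (1 + (1 / 8 : ℝ)))) ≤
        E * 2 ^ (1 / 8 * (R + 2)) := by
    intro ρ hρ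
    have hρ1 : ρ < 1 := by linarith [hρ.2]
    have h1 := psi_flow hd1 hf hd (α := 1 / 8) (by norm_num) (by norm_num) hK hKα hR hm0 hm1
      hW0 hW hinf hθ0 (ρ := ρ) ⟨hρ.1, hρ1⟩
    refine h1.trans ?_
    apply mul_le_mul_of_nonneg_left _ hE0
    rw [Real.rpow_neg (by linarith), ← Real.inv_rpow (by linarith)]
    apply Real.rpow_le_rpow _ _ hexp
    · exact inv_nonneg.2 (by linarith)
    · rw [inv_le_comm₀ (by linarith) (by norm_num)]
      have := hρ.2
      norm_num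
      linarith
  have hfin := stab_flow (d := d) (f := f) (fun S z => Lib_helper96.QP.sum_abs_D_le
    (fun x => hf _) (lowDeg_res hd S z)) (α := 1 / 8) (by norm_num) (by norm_num) hk hk1 hM
  rw [hE] at hfin
  unfold Err at hfin
  linarith

/-- Jensen: the noise stability is at least `V 2^(-I/V)`. -/
lemma jensen {ι : Type*} (s : Finset ι) (c w : ι → ℝ) (hc : ∀ i ∈ s, 0 ≤ c i) {V A : ℝ}
    (hV : 0 < V) (hVs : ∑ i ∈ s, c i = V) (hA : ∑ i ∈ s, w i * c i = A) :
    V * (2 : ℝ) ^ (-(A / V)) ≤ ∑ i ∈ s, (2 : ℝ) ^ (-(w i)) * c i := by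
  have hl : 0 < Real.log 2 := Real.log_pos (by norm_num)
  have key : ∀ i ∈ s, (2 : ℝ) ^ (-(A / V)) * (1 - (w i - A / V) * Real.log 2) * c i ≤
      (2 : ℝ) ^ (-(w i)) * c i := by
    intro i hi
    apply mul_le_mul_of_nonneg_right _ (hc i hi)
    have h1 : (2 : ℝ) ^ (-(w i)) = (2 : ℝ) ^ (-(A / V)) * Real.exp (-((w i - A / V) * Real.log 2)) := by
      rw [Real.rpow_def_of_pos (by norm_num), Real.rpow_def_of_pos (by norm_num), ← Real.exp_add]
      congr 1; ring
    rw [h1]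
    apply mul_le_mul_of_nonneg_left _ (by positivity)
    have := Real.add_one_le_exp (-((w i - A / V) * Real.log 2))
    linarith
  refine le_trans (le_of_eq ?_) (Finset.sum_le_sum key)
  have h2 : ∀ i, (2 : ℝ) ^ (-(A / V)) * (1 - (w i - A / V) * Real.log 2) * c i =
      (2 : ℝ) ^ (-(A / V)) * ((1 + A / V * Real.log 2) * c i - Real.log 2 * (w i * c i)) := by
    intro i; ring
  simp_rw [h2]
  rw [← Finset.mul_sum, Finset.sum_sub_distrib, ← Finset.mul_sum, ← Finset.mul_sum, hVs, hA]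
  field_simp
  ring

/-- The version with the total influence (average sensitivity). -/
theorem total {d : ℕ} (hd1 : 1 ≤ d) (f : (I → Bool) → ℝ)
    (hf : ∀ x, |f x| ≤ 1) (hd : LowDeg d f) {V : ℝ} (hV : 0 < V)
    (hVar : V = av (fun x => f x ^ 2) - av f ^ 2) :
    ∃ j, (V * (2 : ℝ) ^ (-((∑ i, inf f i) / V)) / (4 * (d : ℝ)) ^ 5) ^ 80 ≤ inf f j := by
  have hpar : av (fun x => f x ^ 2) = ∑ S : Finset I, coef f S ^ 2 := (parseval_sq f).symm
  have hemp : av f = coef f ∅ := (coef_empty f).symm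
  have h0 : ∀ g : Finset I → ℝ, ∑ S, g S = g ∅ + ∑ S ∈ univ.erase ∅, g S := fun g =>
    (Finset.add_sum_erase _ _ (Finset.mem_univ _)).symm
  have hVs : ∑ S ∈ univ.erase (∅ : Finset I), coef f S ^ 2 = V := by
    rw [hVar, hpar, hemp, h0 (fun S => coef f S ^ 2)]; ring
  have hA : ∑ S ∈ univ.erase (∅ : Finset I), (S.card : ℝ) * coef f S ^ 2 = ∑ i, inf f i := by
    have h1 : ∑ j, inf f j = ∑ S : Finset I, (S.card : ℝ) * coef f S ^ 2 := by
      calc ∑ j, inf f j = ∑ j, ∑ S : Finset I, if j ∈ S then coef f S ^ 2 else 0 := by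
            refine Finset.sum_congr rfl fun j _ => ?_
            rw [Lib_helper9.QP.inf_eq, Finset.sum_filter]
        _ = ∑ S : Finset I, ∑ j, if j ∈ S then coef f S ^ 2 else 0 := Finset.sum_comm
        _ = ∑ S : Finset I, (S.card : ℝ) * coef f S ^ 2 := by
            refine Finset.sum_congr rfl fun S _ => ?_
            rw [← Finset.sum_filter, Finset.sum_const, nsmul_eq_mul]
            simp
    rw [h1, h0 (fun S => (S.card : ℝ) * coef f S ^ 2)]
    simp
  have hj := jensen (univ.erase (∅ : Finset I)) (fun S => coef f S ^ 2) (fun S => (S.card : ℝ))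
    (fun S _ => sq_nonneg _) hV hVs hA
  refine stab hd1 f hf hd (by positivity) (hj.trans (le_of_eq ?_))
  refine Finset.sum_congr rfl fun S _ => ?_
  rw [Real.rpow_neg (by norm_num), Real.rpow_natCast, one_div, inv_pow]

/-- The version with the first `k` levels. -/
theorem level {d : ℕ} (hd1 : 1 ≤ d) (f : (I → Bool) → ℝ)
    (hf : ∀ x, |f x| ≤ 1) (hd : LowDeg d f) (k : ℕ) {V : ℝ} (hV : 0 < V)
    (hk : V = ∑ S ∈ univ.filter (fun S : Finset I => S.card ≠ 0 ∧ S.card ≤ k), coef f S ^ 2) :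
    ∃ j, (V * (1 / 2 : ℝ) ^ k / (4 * (d : ℝ)) ^ 5) ^ 80 ≤ inf f j := by
  refine stab hd1 f hf hd (by positivity) ?_
  rw [hk, Finset.sum_mul]
  refine le_trans (Finset.sum_le_sum (fun S hS => ?_))
    (Finset.sum_le_sum_of_subset_of_nonneg (f := fun S : Finset I =>
      (1 / 2 : ℝ) ^ S.card * coef f S ^ 2) ?_ fun S _ _ => by positivity)
  · rw [Finset.mem_filter] at hS
    rw [mul_comm]
    apply mul_le_mul_of_nonneg_right _ (sq_nonneg _)
    exact pow_le_pow_of_le_one (by norm_num) (by norm_num) hS.2.2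
  · intro S hS
    rw [Finset.mem_filter] at hS
    rw [Finset.mem_erase]
    exact ⟨fun h => hS.2.1 (by rw [h, Finset.card_empty]), Finset.mem_univ _⟩

end Pool.Agent.Lib_helper92.LS
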