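import Pool.Agent.Lib_helper8.QP.PsiFlow

/-! The flow of the variance stopped at density one half. -/

set_option autoImplicit false
set_option linter.unusedSectionVars false

open Finset Polynomial

namespace Pool.Agent.Lib_helper92.LS

open Pool.Agent.Lib_helper30.AA Pool.Agent.Lib_helper40.QP Pool.Agent.Lib_helper8.QP

variable {I : Type} [Fintype I] [DecidableEq I]

/-- Variance flow stopped at density one half: a bound for the noise stability. -/
theorem stab_flow {d : ℕ} {f : (I → Bool) → ℝ}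
    (hsum : ∀ (S : Finset I) (z x : I → Bool), ∑ j, |D j (res S z f) x| ≤ 4 * (d : ℝ) ^ 2)
    {α k M : ℝ} (hα : 0 < α) (hα1 : α ≤ 1) (hk : 0 < k) (hk1 : k ≤ 1)
    (hM : ∀ ρ ∈ Set.Icc (0 : ℝ) (1 / 2),
      rs ρ (fun S => av (fun z => ∑ j, inf (res S z f) j ^ (1 + α))) ≤ M) :
    ∑ S ∈ univ.erase (∅ : Finset I), (1 / 2 : ℝ) ^ S.card * coef f S ^ 2 ≤
      4 * (d : ℝ) ^ 2 * (Real.sqrt k + k ^ (-2 : ℝ) * M) := by
  set ρ0 : ℝ := 1 / 2 with hρ0
  have hρ00 : 0 ≤ ρ0 := by rw [hρ0]; norm_num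
  have hρ01 : ρ0 < 1 := by rw [hρ0]; norm_num
  set Q : Finset I → ℝ := fun S => av (fun z => av (res S z f) ^ 2) with hQ
  set Bd : ℝ := 4 * (d : ℝ) ^ 2 * (Real.sqrt k + k ^ (-2 : ℝ) * M) with hBd
  have hkp : 0 < k ^ (-2 : ℝ) := Real.rpow_pos_of_pos hk _
  have hPsi0 : ∀ ρ ∈ Set.Icc (0 : ℝ) 1,
      0 ≤ rs ρ (fun S => av (fun z => ∑ j, inf (res S z f) j ^ (1 + α))) := by
    intro ρ hρ
    refine rs_nonneg hρ.1 hρ.2 fun S => av_nonneg fun z => Finset.sum_nonneg fun j _ => ?_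
    exact Real.rpow_nonneg (av_nonneg fun _ => sq_nonneg _) _
  have hM0 : 0 ≤ M := (hPsi0 0 ⟨le_rfl, zero_le_one⟩).trans (hM 0 ⟨le_rfl, hρ00⟩)
  have hBd0 : 0 ≤ Bd := by
    have := Real.sqrt_nonneg k
    positivity
  -- derivative bound
  have hder : ∀ ρ ∈ Set.Icc (0 : ℝ) ρ0, ∃ F', HasDerivAt (fun ρ => rs ρ Q) F' ρ ∧
      F' ≤ 2 * Bd := by
    intro ρ hρ
    have hρ1 : ρ < 1 := lt_of_le_of_lt hρ.2 hρ01
    obtain ⟨F', h1, h2⟩ := russo Q hρ1
    refine ⟨F', h1, ?_⟩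
    have h3 : (1 - ρ) * F' ≤ Bd := by
      rw [h2]
      calc rs ρ (fun S => ∑ i ∈ Sᶜ, (Q (insert i S) - Q S))
          ≤ rs ρ (fun S => 4 * (d : ℝ) ^ 2 * Real.sqrt k + 4 * (d : ℝ) ^ 2 * k ^ (-2 : ℝ) *
              av (fun z => ∑ j, inf (res S z f) j ^ (1 + α))) := by
            refine rs_mono hρ.1 hρ1.le fun S => ?_
            calc ∑ i ∈ Sᶜ, (Q (insert i S) - Q S)
                = ∑ i ∈ Sᶜ, av (fun z => av (D i (res S z f)) ^ 2) := by
                  refine Finset.sum_congr rfl fun i hi => ?_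
                  rw [hQ]
                  simp only
                  rw [Lib_helper83.QP.step_mean f (Finset.mem_compl.1 hi)]
                  ring
              _ ≤ ∑ i, av (fun z => av (D i (res S z f)) ^ 2) :=
                  Finset.sum_le_sum_of_subset_of_nonneg (Finset.subset_univ _)
                    fun i _ _ => av_nonneg fun z => sq_nonneg _
              _ = av (fun z => ∑ i, av (D i (res S z f)) ^ 2) := by rw [av_sum]
              _ ≤ av (fun z => 4 * (d : ℝ) ^ 2 * Real.sqrt k + 4 * (d : ℝ) ^ 2 * k ^ (-2 : ℝ) *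
                    ∑ j, inf (res S z f) j ^ (1 + α)) := by
                  refine av_mono fun z => ?_
                  have := sum_sq_mean_le (hsum S z) hα hα1 hk hk1
                  linarith [this]
              _ = _ := by rw [av_add, av_const, av_mul_left]
        _ = 4 * (d : ℝ) ^ 2 * Real.sqrt k + 4 * (d : ℝ) ^ 2 * k ^ (-2 : ℝ) *
              rs ρ (fun S => av (fun z => ∑ j, inf (res S z f) j ^ (1 + α))) := by
            rw [rs_add, rs_const, rs_mul_left]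
        _ ≤ 4 * (d : ℝ) ^ 2 * Real.sqrt k + 4 * (d : ℝ) ^ 2 * k ^ (-2 : ℝ) * M := by
            have := hM ρ hρ
            have h5 : 0 ≤ 4 * (d : ℝ) ^ 2 * k ^ (-2 : ℝ) := by positivity
            have := mul_le_mul_of_nonneg_left this h5
            linarith
        _ = Bd := by rw [hBd]; ring
    have h4 : 1 / 2 ≤ 1 - ρ := by
      have := hρ.2
      rw [hρ0] at this
      linarith
    by_contra hcon
    push Not at hcon
    nlinarith
  -- mean value
  have hmv : rs ρ0 Q - rs 0 Q ≤ 2 * Bd * (ρ0 - 0) := by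
    have hc : ContinuousOn (fun ρ => rs ρ Q) (Set.Icc (0 : ℝ) ρ0) := fun ρ hρ => by
      obtain ⟨F', h1, _⟩ := hder ρ hρ
      exact h1.continuousAt.continuousWithinAt
    have hd' : DifferentiableOn ℝ (fun ρ => rs ρ Q) (interior (Set.Icc (0 : ℝ) ρ0)) :=
      fun ρ hρ => by
        obtain ⟨F', h1, _⟩ := hder ρ (interior_subset hρ)
        exact h1.differentiableAt.differentiableWithinAt
    refine Convex.image_sub_le_mul_sub_of_deriv_le (convex_Icc (0 : ℝ) ρ0) hc hd' ?_ 0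
      ⟨le_rfl, hρ00⟩ ρ0 ⟨hρ00, le_rfl⟩ hρ00
    intro ρ hρ
    obtain ⟨F', h1, h2⟩ := hder ρ (interior_subset hρ)
    rw [h1.deriv]; exact h2
  have hmv2 : rs ρ0 Q - rs 0 Q ≤ Bd := by
    refine hmv.trans (le_of_eq ?_)
    rw [hρ0]; ring
  have hfour : ∀ ρ, rs ρ Q = ∑ S : Finset I, ρ ^ S.card * coef f S ^ 2 :=
    fun ρ => Lib_helper83.QP.rs_mean_sq f ρ
  have h0 : ∀ g : Finset I → ℝ, ∑ S, g S = g ∅ + ∑ S ∈ univ.erase ∅, g S := fun g =>
    (Finset.add_sum_erase _ _ (Finset.mem_univ _)).symm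
  rw [hfour, hfour, h0, h0 (fun S => (0 : ℝ) ^ S.card * coef f S ^ 2)] at hmv2
  have hz : ∑ S ∈ univ.erase (∅ : Finset I), (0 : ℝ) ^ S.card * coef f S ^ 2 = 0 := by
    refine Finset.sum_eq_zero fun S hS => ?_
    have hS' : S.card ≠ 0 := by
      rw [Finset.mem_erase] at hS
      exact fun h => hS.1 (Finset.card_eq_zero.1 h)
    rw [zero_pow hS', zero_mul]
  rw [hz] at hmv2
  simp only [Finset.card_empty, pow_zero] at hmv2
  linarith

end Pool.Agent.Lib_helper92.LS
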